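import Pool.Agent.N509.RF.Lim
import Pool.Agent.N509.RG.Free

set_option autoImplicit false

/-!
# Linear groups of bounded degree are an equationally Noetherian family
-/

namespace Pool.Agent.N509.RF

open Matrix

section

variable (n r : ℕ)

/-- the polynomial ring -/
abbrev RR : Type := MvPolynomial ((Fin r × Bool) × Fin n × Fin n) ℤ

variable {n r}

/-- the matrix of a letter -/
noncomputable def XX (s : Fin r × Bool) : Matrix (Fin n) (Fin n) (RR n r) :=
  Matrix.of fun i j => MvPolynomial.X (s, i, j)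

/-- the matrix of a word -/
noncomputable def PW (L : List (Fin r × Bool)) : Matrix (Fin n) (Fin n) (RR n r) :=
  (L.map XX).prod

variable {K : Type} [CommRing K]

/-- evaluation at a representation -/
noncomputable def evl (φ : FreeGroup (Fin r) →* GL (Fin n) K) : RR n r →+* K :=
  MvPolynomial.eval₂Hom (Int.castRingHom K) fun x => (φ (FreeGroup.mk [x.1])).1 x.2.1 x.2.2

theorem evl_X (φ : FreeGroup (Fin r) →* GL (Fin n) K) (s : Fin r × Bool) :
    (XX s).map (evl φ) = (φ (FreeGroup.mk [s])).1 := by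
  ext i j
  rw [Matrix.map_apply]
  change evl φ (MvPolynomial.X (s, i, j)) = _
  rw [evl, MvPolynomial.coe_eval₂Hom, MvPolynomial.eval₂_X]

theorem evl_PW (φ : FreeGroup (Fin r) →* GL (Fin n) K) (L : List (Fin r × Bool)) :
    (PW L).map (evl φ) = (φ (FreeGroup.mk L)).1 := by
  induction L with
  | nil =>
    have h : (FreeGroup.mk [] : FreeGroup (Fin r)) = 1 := rfl
    rw [h, map_one]
    change (1 : Matrix (Fin n) (Fin n) (RR n r)).map (evl φ) = 1
    rw [Matrix.map_one _ (map_zero _) (map_one _)]
  | cons s L ih =>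
    have h : (FreeGroup.mk (s :: L) : FreeGroup (Fin r)) = FreeGroup.mk [s] * FreeGroup.mk L := by
      rw [FreeGroup.mul_mk]
      rfl
    have h2 : (PW (s :: L) : Matrix (Fin n) (Fin n) (RR n r)) = XX s * PW L := by
      rw [PW, List.map_cons, List.prod_cons]
      rfl
    rw [h, map_mul, h2, Matrix.map_mul, evl_X, ih]
    rfl

end

/-- **Linear groups of bounded degree over commutative rings.** -/
theorem eqNoeth_linear {ι : Type} (Γ : ι → Type) [∀ i, Group (Γ i)] (n : ℕ)
    (h : ∀ i, ∃ (K : Type) (_ : CommRing K) (σ : Γ i →* GL (Fin n) K), Function.Injective σ) :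
    EqNoeth Γ := by
  classical
  intro r S
  obtain ⟨A, hA⟩ : ∃ A : Set (RR n r), A = {x | ∃ s ∈ S, ∃ i j, x = (PW s.toWord - 1) i j} :=
    ⟨_, rfl⟩
  obtain ⟨A₀, hA₀, hspan⟩ := (Submodule.fg_span_iff_fg_span_finset_subset (R := RR n r) A).1
    (IsNoetherian.noetherian _)
  have h1 : ∀ x ∈ A₀, ∃ s ∈ S, ∃ i j, x = (PW s.toWord - 1) i j := by
    intro x hx
    have := hA₀ hx
    rwa [hA] at this
  choose! g hg using h1
  refine ⟨A₀.image g, ?_, ?_⟩
  · intro s hs
    obtain ⟨a, ha, rfl⟩ := Finset.mem_image.1 (Finset.mem_coe.1 hs)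
    exact (hg a ha).1
  · intro i φ hφ s hs
    obtain ⟨K, _, σ, hσ⟩ := h i
    apply hσ
    rw [map_one]
    have key : ∀ t : FreeGroup (Fin r), σ (φ t) = 1 ↔
        ∀ a b, evl (σ.comp φ) ((PW t.toWord - 1) a b) = 0 := by
      intro t
      have h2 := evl_PW (σ.comp φ) t.toWord
      rw [FreeGroup.mk_toWord] at h2
      have h3 : ((PW t.toWord - 1 : Matrix (Fin n) (Fin n) (RR n r))).map (evl (σ.comp φ)) =
          (σ (φ t)).1 - 1 := by
        rw [Matrix.map_sub (evl (σ.comp φ)) (fun a b => map_sub _ a b), h2,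
          Matrix.map_one _ (map_zero _) (map_one _)]
        rfl
      constructor
      · intro h4 a b
        have h5 := congrFun (congrFun h3 a) b
        rw [Matrix.map_apply, h4] at h5
        rw [h5]
        simp
      · intro h4
        apply Units.ext
        rw [← sub_eq_zero]
        change (σ (φ t)).1 - 1 = 0
        rw [← h3]
        ext a b
        rw [Matrix.map_apply]
        exact h4 a b
    rw [key]
    intro a b
    have h2 : (PW s.toWord - 1) a b ∈ Submodule.span (RR n r) (A₀ : Set (RR n r)) := by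
      rw [← hspan]
      refine Submodule.subset_span ?_
      rw [hA]
      exact ⟨s, hs, a, b, rfl⟩
    have h3 : Ideal.span (A₀ : Set (RR n r)) ≤ RingHom.ker (evl (σ.comp φ)) := by
      rw [Ideal.span_le]
      intro x hx
      obtain ⟨h4, a, b, h5⟩ := hg x hx
      have h6 : σ (φ (g x)) = 1 := by
        rw [hφ _ (Finset.mem_image_of_mem _ hx), map_one]
      rw [key] at h6
      rw [h5]
      exact h6 a b
    exact h3 h2

/-- the free groups of finite rank -/
abbrev Fr (r : ℕ) : Type := FreeGroup (Fin r)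

theorem eqNoeth_free : EqNoeth Fr := by
  refine eqNoeth_linear Fr 2 fun r => ?_
  obtain ⟨σ, hσ, -⟩ := Pool.Agent.N509.RG.flexible_free (r + 2) (by omega)
  refine ⟨ℂ, inferInstance, (SpecialLinearGroup.toGL.comp σ).comp
    (FreeGroup.map (Fin.castLE (by omega : r ≤ r + 2))), ?_⟩
  exact (SpecialLinearGroup.toGL_injective.comp hσ).comp
    (FreeGroup.map_injective (Fin.castLE_injective _))

end Pool.Agent.N509.RF
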