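import Pool.Agent.N509.RF.Prime
import Pool.Agent.N509.RF.Lin
import Pool.Agent.N509.RG.AutF
import Pool.Agent.N509.RG.Fin

set_option autoImplicit false

/-!
# Extensions by subdirect products
-/

namespace Pool.Agent.N509.RF

open Pool.Agent.N509.RG
open Pool.Agent.Y110.FJ (ClosedE)

section

variable {C : ∀ (G : Type) [Group G], Prop}

/-- a group which embeds in a finite product of groups in the class -/
theorem C_subdirect (hC : ClosedE C) {E : Type} [Group E] (T : Finset (Subgroup E))
    (hne : T.Nonempty) (hT : ∀ K ∈ T, ∃ _ : K.Normal, C (E ⧸ K)) :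
    ∃ _ : (sInf (T : Set (Subgroup E))).Normal, C (E ⧸ sInf (T : Set (Subgroup E))) := by
  classical
  induction hne using Finset.Nonempty.cons_induction with
  | singleton K =>
    have h0 : sInf (({K} : Finset (Subgroup E)) : Set (Subgroup E)) = K := by simp
    rw [h0]
    exact hT K (Finset.mem_singleton_self K)
  | cons K T hKT hne ih =>
    obtain ⟨hn, h1⟩ := ih fun K' hK' => hT K' (Finset.mem_cons_of_mem hK')
    obtain ⟨hKn, h2⟩ := hT K (Finset.mem_cons_self _ _)
    obtain ⟨M, hM⟩ : ∃ M, M = sInf (T : Set (Subgroup E)) := ⟨_, rfl⟩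
    have h0 : sInf ((Finset.cons K T hKT : Finset (Subgroup E)) : Set (Subgroup E)) = K ⊓ M := by
      rw [Finset.coe_cons, sInf_insert, hM]
    have hMn : M.Normal := by rw [hM]; exact hn
    have h1' : C (E ⧸ M) := by
      subst hM
      exact h1
    rw [h0]
    refine ⟨inferInstance, hC.base.of_injective _ _ ((QuotientGroup.map (K ⊓ M) K (MonoidHom.id E)
      inf_le_left).prod (QuotientGroup.map (K ⊓ M) M (MonoidHom.id E) inf_le_right)) ?_
      (hC.base.prod _ _ h2 h1')⟩
    rw [injective_iff_map_eq_one]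
    intro q hq
    obtain ⟨x, rfl⟩ := QuotientGroup.mk_surjective q
    rw [QuotientGroup.eq_one_iff]
    exact ⟨(QuotientGroup.eq_one_iff x).1 (congrArg Prod.fst hq),
      (QuotientGroup.eq_one_iff x).1 (congrArg Prod.snd hq)⟩

/-- finite orbits, relative form -/
theorem comap_Stb_finiteIndex {E G : Type} [Group E] [Group G] (f : E →* MulAut G)
    {K : Subgroup G} (h : Orb f K) : ((Stb K).comap f).FiniteIndex := by
  have hf : Finite (Set.range fun e : E => K.map (f e).toMonoidHom) := h
  have hf2 : Finite (E ⧸ (Stb K).comap f) := by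
    refine Finite.of_injective (β := Set.range fun e : E => K.map (f e).toMonoidHom)
      (Quotient.lift (fun e => ⟨K.map (f e).toMonoidHom, e, rfl⟩) ?_) ?_
    · intro a b hab
      have h1 : a⁻¹ * b ∈ (Stb K).comap f := QuotientGroup.leftRel_apply.1 hab
      apply Subtype.ext
      change K.map (f a).toMonoidHom = K.map (f b).toMonoidHom
      have h2 : K.map (f (a⁻¹ * b)).toMonoidHom = K := h1
      have h3 : b = a * (a⁻¹ * b) := by group
      rw [h3, map_mul, ← map_map_inv, h2]
    · intro q q'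
      refine Quotient.inductionOn₂ q q' ?_
      intro a b hab
      have h1 : K.map (f a).toMonoidHom = K.map (f b).toMonoidHom := congrArg Subtype.val hab
      apply Quotient.sound
      apply QuotientGroup.leftRel_apply.2
      change K.map (f (a⁻¹ * b)).toMonoidHom = K
      rw [map_mul, ← map_map_inv, ← h1, map_map_inv, ← map_mul, inv_mul_cancel, map_one]
      exact Subgroup.map_id K
  exact Subgroup.finiteIndex_of_finite_quotient

/-- the case of an invariant subgroup: `K ≤ N` are normal in `E` -/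
theorem C_quot (hC : ClosedE C) {E : Type} [Group E] (N K : Subgroup E) [N.Normal] [K.Normal]
    (hKN : K ≤ N) {L : Type} [Group L] (p : N →* L) (hp : Function.Surjective p)
    (hker : ∀ n : N, p n = 1 ↔ n.1 ∈ K) (hcyc : CyclicExt C L) (hQ : C (E ⧸ N)) : C (E ⧸ K) := by
  obtain ⟨M, hM⟩ : ∃ M : Subgroup (E ⧸ K), M = N.map (QuotientGroup.mk' K) := ⟨_, rfl⟩
  have hMn : M.Normal := by
    rw [hM]
    infer_instance
  refine C_of_normal hC M ?_ ?_
  · have e : L ≃* M := by
      have e1 := QuotientGroup.quotientKerEquivOfSurjective p hp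
      let g : N →* M := ((QuotientGroup.mk' K).comp N.subtype).codRestrict M (fun n => by
        rw [hM]
        exact ⟨n.1, n.2, rfl⟩)
      have hg : Function.Surjective g := by
        rintro ⟨q, hq⟩
        rw [hM] at hq
        obtain ⟨n, hn, rfl⟩ := hq
        exact ⟨⟨n, hn⟩, rfl⟩
      have hkk : p.ker = g.ker := by
        ext n
        rw [MonoidHom.mem_ker, hker, MonoidHom.mem_ker]
        constructor
        · intro h
          exact Subtype.ext ((QuotientGroup.eq_one_iff n.1).2 h)
        · intro h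
          exact (QuotientGroup.eq_one_iff n.1).1 (congrArg Subtype.val h)
      exact e1.symm.trans ((QuotientGroup.quotientMulEquivOfEq hkk).trans
        (QuotientGroup.quotientKerEquivOfSurjective g hg))
    exact hcyc.congr hC e
  · have e : (E ⧸ K) ⧸ M ≃* E ⧸ N := by
      subst hM
      exact QuotientGroup.quotientQuotientEquivQuotient K N hKN
    exact hC.base.of_injective _ _ e.toMonoidHom e.injective hQ

/-- **Extensions by subdirect products.** -/
theorem ext_subdirect (hC : ClosedE C) {E : Type} [Group E] (N : Subgroup E) [N.Normal]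
    (T : Finset (Subgroup N))
    (hT : ∀ K ∈ T, ∃ _ : K.Normal, (Orb (MulAut.conjNormal : E →* MulAut N) K ∨
      PrimeGroup (N ⧸ K)) ∧ CyclicExt C (N ⧸ K))
    (h1 : ∀ g : N, (∀ K ∈ T, g ∈ K) → g = 1) (hQ : C (E ⧸ N)) : C E := by
  classical
  obtain ⟨T', hT', h2⟩ := refine_orb (f := (MulAut.conjNormal : E →* MulAut N)) T
    (fun K hK => (hT K hK).1) (fun K hK => by
      obtain ⟨hn, h | h, -⟩ := hT K hK
      · exact Or.inl h
      · exact Or.inr ⟨hn, h⟩) h1
  -- the subgroup of finite index
  obtain ⟨A, hA⟩ : ∃ A : Subgroup E, A = ⨅ K : T', (Stb K.1).comap MulAut.conjNormal := ⟨_, rfl⟩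
  have hAfi : A.FiniteIndex := by
    rw [hA]
    exact Subgroup.finiteIndex_iInf fun K => comap_Stb_finiteIndex _ (hT' K.1 K.2).1
  have hTn : ∀ K ∈ T', K.Normal := by
    intro K' hK'
    obtain ⟨-, K, hK, e, rfl⟩ := hT' K' hK'
    obtain ⟨hn, -⟩ := hT K hK
    exact hn.map _ (MulEquiv.surjective _)
  have hNA : N ≤ A := by
    intro n hn
    rw [hA, Subgroup.mem_iInf]
    intro K
    have hKn := hTn K.1 K.2
    have h3 : (MulAut.conjNormal n : MulAut N) = MulAut.conj (⟨n, hn⟩ : N) := by
      ext x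
      rw [MulAut.conjNormal_apply]
      rfl
    rw [Subgroup.mem_comap, h3]
    exact conj_mem_Stb K.1 _
  refine hC.base.finiteIndex E A hAfi ?_
  -- the normal subgroups of `A`
  obtain ⟨N', hN'⟩ : ∃ N' : Subgroup A, N' = N.subgroupOf A := ⟨_, rfl⟩
  have hN'n : N'.Normal := by
    rw [hN']
    infer_instance
  have hQ' : C (A ⧸ N') := by
    refine hC.base.of_injective _ _ (QuotientGroup.map N' N A.subtype ?_) ?_ hQ
    · rw [hN']
      exact le_rfl
    · rw [injective_iff_map_eq_one]
      intro q hq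
      obtain ⟨x, rfl⟩ := QuotientGroup.mk_surjective q
      rw [QuotientGroup.eq_one_iff, hN']
      exact (QuotientGroup.eq_one_iff (x : E)).1 hq
  let j : N →* A := Subgroup.inclusion hNA
  have hj : Function.Injective j := Subgroup.inclusion_injective hNA
  have key : ∀ K ∈ T', ∃ _ : (K.map j).Normal, C (A ⧸ K.map j) := by
    intro K' hK'
    have hKn := hTn K' hK'
    have hnorm : (K'.map j).Normal := by
      constructor
      rintro _ ⟨k, hk, rfl⟩ a
      have ha : a.1 ∈ (Stb K').comap MulAut.conjNormal := by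
        have h3 : a.1 ∈ (⨅ K : T', (Stb K.1).comap MulAut.conjNormal) := hA.le a.2
        rw [Subgroup.mem_iInf] at h3
        exact h3 ⟨K', hK'⟩
      have h4 := Stb_mem (Subgroup.mem_comap.1 ha) hk
      refine ⟨_, h4, ?_⟩
      apply Subtype.ext
      change ((MulAut.conjNormal a.1 k : N) : E) = _
      rw [MulAut.conjNormal_apply]
      rfl
    refine ⟨hnorm, ?_⟩
    obtain ⟨-, K, hK, e, hKe⟩ := hT' K' hK'
    obtain ⟨hn, -, hcyc⟩ := hT K hK
    have e1 : N ⧸ K ≃* N ⧸ K' := QuotientGroup.congr K K' (MulAut.conjNormal e) hKe.symm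
    have hcyc' : CyclicExt C (N ⧸ K') := hcyc.congr hC e1
    have hle : K'.map j ≤ N' := by
      rintro _ ⟨k, hk, rfl⟩
      rw [hN']
      exact k.2
    let e3 : N' →* N :=
      { toFun := fun x => ⟨x.1.1, hN'.le x.2⟩
        map_one' := rfl
        map_mul' := fun x y => rfl }
    refine C_quot hC N' (K'.map j) hle ((QuotientGroup.mk' K').comp e3) ?_ ?_ hcyc' hQ'
    · refine (QuotientGroup.mk'_surjective K').comp ?_
      intro n
      refine ⟨⟨⟨n.1, hNA n.2⟩, ?_⟩, rfl⟩
      rw [hN']
      exact n.2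
    · intro n
      change ((e3 n : N) : N ⧸ K') = 1 ↔ _
      rw [QuotientGroup.eq_one_iff]
      constructor
      · intro h
        exact ⟨e3 n, h, rfl⟩
      · rintro ⟨k, hk, hkn⟩
        have h3 : e3 n = k := Subtype.ext (congrArg Subtype.val hkn).symm
        rw [h3]
        exact hk
  rcases T'.eq_empty_or_nonempty with hem | hne
  · -- `N` is trivial
    refine hC.base.of_injective _ _ (QuotientGroup.mk' N') ?_ hQ'
    rw [injective_iff_map_eq_one]
    intro a ha
    have h3 : a ∈ N' := (QuotientGroup.eq_one_iff a).1 ha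
    rw [hN'] at h3
    have h4 := h2 ⟨a.1, h3⟩ (by rw [hem]; simp)
    exact Subtype.ext (congrArg (fun z : N => (z : E)) h4)
  · obtain ⟨hn, h3⟩ := C_subdirect hC (T'.image fun K => K.map j) (hne.image _) (by
      intro K hK
      obtain ⟨K', hK', rfl⟩ := Finset.mem_image.1 hK
      exact key K' hK')
    refine hC.base.of_injective _ _ (QuotientGroup.mk' _) ?_ h3
    rw [injective_iff_map_eq_one]
    intro a ha
    have h4 : a ∈ sInf ((T'.image fun K => K.map j : Finset (Subgroup A)) : Set (Subgroup A)) :=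
      (QuotientGroup.eq_one_iff a).1 ha
    rw [Subgroup.mem_sInf] at h4
    have h5 : ∀ K ∈ T', a ∈ K.map j := fun K hK =>
      h4 _ (Finset.mem_coe.2 (Finset.mem_image_of_mem _ hK))
    obtain ⟨K, hK⟩ := hne
    obtain ⟨n, -, rfl⟩ := h5 K hK
    rw [h2 n fun K hK => ?_, map_one]
    obtain ⟨m, hm, hmn⟩ := h5 K hK
    rwa [← hj hmn]

section res

variable {ι : Type} {Γ : ι → Type} [∀ i, Group (Γ i)]

theorem IsMaxLim.orb (hΓ : EqNoeth Γ) {E G : Type} [Group E] [Group G] [Group.FG G]
    (f : E →* MulAut G) {K : Subgroup G} (hK : IsMaxLim Γ K) : Orb f K := by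
  refine (finite_maxLim Γ hΓ (N := G)).subset ?_
  rintro _ ⟨e, rfl⟩
  exact hK.map (f e)

/-- extensions by finitely generated residually `Γ` groups -/
theorem ext_res (hC : ClosedE C) (hΓ : EqNoeth Γ) {E : Type} [Group E] (N : Subgroup E) [N.Normal]
    [Group.FG N] (hN : Res Γ N)
    (hcyc : ∀ K : Subgroup N, IsMaxLim Γ K → ∃ _ : K.Normal, CyclicExt C (N ⧸ K))
    (hQ : C (E ⧸ N)) : C E := by
  have hfin := finite_maxLim Γ hΓ (N := N)
  refine ext_subdirect hC N hfin.toFinset (fun K hK => ?_) (fun g hg => ?_) hQ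
  · have hK' : IsMaxLim Γ K := hfin.mem_toFinset.1 hK
    obtain ⟨hn, h⟩ := hcyc K hK'
    exact ⟨hn, Or.inl (hK'.orb hΓ _), h⟩
  · exact hN.eq_one fun K hK => hg K (hfin.mem_toFinset.2 hK)

theorem Res.congr {G H : Type} [Group G] [Group H] (e : G ≃* H) (h : Res Γ H) : Res Γ G := by
  intro g hg
  obtain ⟨i, φ, h1⟩ := h (e g) fun h2 => hg ((map_eq_one_iff e e.injective).1 h2)
  exact ⟨i, φ.comp e.toMonoidHom, h1⟩

/-- semidirect products with `ℤ` -/
theorem cyclicExt_res (hC : ClosedE C) (hΓ : EqNoeth Γ)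
    (hL : ∀ (L : Type) [Group L] [Group.FG L], FullyRes Γ L → CyclicExt C L)
    (N : Type) [Group N] [hfg : Group.FG N] (hN : Res Γ N) : CyclicExt C N := by
  intro φ
  obtain ⟨N', hN'⟩ : ∃ N' : Subgroup (N ⋊[zpowersHom (MulAut N) φ] Multiplicative ℤ),
    N' = (SemidirectProduct.inl : N →* N ⋊[zpowersHom (MulAut N) φ] Multiplicative ℤ).range :=
    ⟨_, rfl⟩
  have hker : N' = (SemidirectProduct.rightHom :
      N ⋊[zpowersHom (MulAut N) φ] Multiplicative ℤ →* _).ker := by
    rw [hN']
    exact SemidirectProduct.range_inl_eq_ker_rightHom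
  have hN'n : N'.Normal := by
    rw [hker]
    infer_instance
  have e : N ≃* N' := by
    rw [hN']
    exact MonoidHom.ofInjective SemidirectProduct.inl_injective
  have hfg' : Group.FG N' := Group.fg_of_surjective (f := e.toMonoidHom) e.surjective
  refine ext_res hC hΓ N' (hN.congr e.symm) (fun K hK => ?_) ?_
  · obtain ⟨⟨hn, hK'⟩, -⟩ := hK
    exact ⟨hn, hL (N' ⧸ K) hK'⟩
  · refine hC.base.of_injective _ _ (QuotientGroup.lift N' (SemidirectProduct.rightHom :
      N ⋊[zpowersHom (MulAut N) φ] Multiplicative ℤ →* Multiplicative ℤ) hker.le) ?_ hC.base.int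
    rw [injective_iff_map_eq_one]
    intro q hq
    obtain ⟨x, rfl⟩ := QuotientGroup.mk_surjective q
    rw [QuotientGroup.lift_mk] at hq
    rw [QuotientGroup.eq_one_iff]
    exact hker.ge hq

/-- a finitely generated normal subgroup of finite index in a given subgroup of finite index -/
theorem core_fg' {G : Type} [Group G] (N : Subgroup G) [hN : Group.FG N] (hfi : N.FiniteIndex) :
    Group.FG G ∧ Group.FG N.normalCore ∧ N.normalCore.FiniteIndex := by
  have h1 : N.normalCore.FiniteIndex := inferInstance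
  have hG : Group.FG G := by
    obtain ⟨T, hT, hT'⟩ := (Group.fg_iff_subgroup_fg N).1 hN |> fun h => (Subgroup.fg_iff _).1 h
    have h2 : Finite (G ⧸ N) := Subgroup.finite_quotient_of_finiteIndex
    rw [Group.fg_iff]
    refine ⟨T ∪ Set.range (Quotient.out : G ⧸ N → G), ?_, hT'.union (Set.finite_range _)⟩
    rw [eq_top_iff]
    intro g _
    have h3 : (Quotient.out (g : G ⧸ N))⁻¹ * g ∈ N := by
      rw [← QuotientGroup.eq]
      exact Quotient.out_eq _
    have h4 : g = Quotient.out (g : G ⧸ N) * ((Quotient.out (g : G ⧸ N))⁻¹ * g) := by group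
    rw [h4]
    refine mul_mem (Subgroup.subset_closure (Or.inr ⟨_, rfl⟩)) ?_
    have h5 : (Quotient.out (g : G ⧸ N))⁻¹ * g ∈ Subgroup.closure T := hT ▸ h3
    exact Subgroup.closure_mono Set.subset_union_left h5
  exact ⟨hG, Subgroup.fg_of_index_ne_zero N.normalCore, h1⟩

/-- **Virtually residually `Γ` groups.** -/
theorem cyclicExt_virtually (hC : ClosedE C) (hΓ : EqNoeth Γ)
    (hL : ∀ (L : Type) [Group L] [Group.FG L], FullyRes Γ L → CyclicExt C L)
    (N : Type) [Group N] (N₀ : Subgroup N) [hfg : Group.FG N₀] (hfi : N₀.FiniteIndex)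
    (hN : Res Γ N₀) : CyclicExt C N := by
  obtain ⟨hG, hfg', hfi'⟩ := core_fg' N₀ hfi
  have hRM : Res Γ N₀.normalCore := by
    intro g hg
    obtain ⟨i, φ, h1⟩ := hN (Subgroup.inclusion N₀.normalCore_le g) fun h2 => hg
      ((injective_iff_map_eq_one _).1 (Subgroup.inclusion_injective N₀.normalCore_le) g h2)
    exact ⟨i, φ.comp (Subgroup.inclusion N₀.normalCore_le), h1⟩
  have h1 : CyclicExt C N₀.normalCore := cyclicExt_res hC hΓ hL _ hRM
  have h3 : Finite (N ⧸ N₀.normalCore) := Subgroup.finite_quotient_of_finiteIndex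
  exact step_rigid hC N₀.normalCore (Rigid.finite _ inferInstance hG hfi') h1
    (CyclicExt.of_finite hC)

end res

end

end Pool.Agent.N509.RF
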