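import Pool.Agent.N509.RF.Fj
import Pool.Agent.H26R2.Basic

set_option autoImplicit false

/-!
# Subgroups of products of free groups
-/

namespace Pool.Agent.N509.RF

open Pool.Agent.N509.RG
open Pool.Agent.Y110.FJ (ClosedE)

section free

variable {G : Type} [Group G] [IsFreeGroup G]

/-- the homomorphism to `ℤ` counting one generator -/
noncomputable def cnt (u : IsFreeGroup.Generators G) : G →* Multiplicative ℤ := by
  classical
  exact IsFreeGroup.lift fun v => if v = u then Multiplicative.ofAdd (1 : ℤ) else 1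

theorem cnt_of (u v : IsFreeGroup.Generators G) [Decidable (v = u)] :
    cnt u (IsFreeGroup.of v) = if v = u then Multiplicative.ofAdd (1 : ℤ) else 1 := by
  classical
  rw [cnt, IsFreeGroup.lift_of]
  split_ifs <;> rfl

/-- a free group with a nontrivial central element is cyclic -/
theorem cyclic_of_center {y : G} (hy : y ≠ 1) (hc : ∀ g : G, g * y = y * g) :
    ∃ r : G, ∀ g : G, ∃ i : ℤ, g = r ^ i := by
  classical
  have hsub : Subsingleton (IsFreeGroup.Generators G) := by
    constructor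
    intro u v
    by_contra huv
    obtain ⟨i, hi⟩ := Pool.Agent.H26R2.mem_zpowers_of_commute (b := y) (c := IsFreeGroup.of u)
      (hc _).symm (cnt u) (by rw [cnt_of, if_pos rfl])
    obtain ⟨j, hj⟩ := Pool.Agent.H26R2.mem_zpowers_of_commute (b := y) (c := IsFreeGroup.of v)
      (hc _).symm (cnt v) (by rw [cnt_of, if_pos rfl])
    have h1 : cnt u y = Multiplicative.ofAdd (1 : ℤ) ^ i := by
      rw [hi, map_zpow, cnt_of, if_pos rfl]
    have h2 : cnt u y = 1 := by
      rw [hj, map_zpow, cnt_of, if_neg (Ne.symm huv), one_zpow]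
    rw [h2, ← ofAdd_zsmul] at h1
    have h3 : i = 0 := by
      have h4 := congrArg Multiplicative.toAdd h1
      simpa using h4.symm
    rw [h3, zpow_zero] at hi
    exact hy hi
  obtain ⟨e⟩ : Nonempty (G ≃* FreeGroup (IsFreeGroup.Generators G)) := ⟨IsFreeGroup.toFreeGroup G⟩
  rcases isEmpty_or_nonempty (IsFreeGroup.Generators G) with hE | ⟨⟨u⟩⟩
  · refine ⟨1, fun g => ⟨0, ?_⟩⟩
    apply e.injective
    exact Subsingleton.elim _ _
  · refine ⟨e.symm (FreeGroup.of u), fun g => ?_⟩
    have h1 : e g ∈ Subgroup.closure (Set.range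
        (FreeGroup.of : IsFreeGroup.Generators G → FreeGroup (IsFreeGroup.Generators G))) := by
      rw [FreeGroup.closure_range_of]
      trivial
    have h2 : Set.range (FreeGroup.of : IsFreeGroup.Generators G →
        FreeGroup (IsFreeGroup.Generators G)) = {FreeGroup.of u} := by
      ext w
      constructor
      · rintro ⟨v, rfl⟩
        rw [Subsingleton.elim v u]
        rfl
      · rintro rfl
        exact ⟨u, rfl⟩
    rw [h2] at h1
    obtain ⟨i, hi⟩ := Subgroup.mem_closure_singleton.mp h1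
    refine ⟨i, ?_⟩
    apply e.injective
    rw [map_zpow, e.apply_symm_apply, hi]

theorem torsion_free (g : G) (n : ℕ) (hn : n ≠ 0) (h : g ^ n = 1) : g = 1 := by
  obtain ⟨e⟩ : Nonempty (G ≃* FreeGroup (IsFreeGroup.Generators G)) := ⟨IsFreeGroup.toFreeGroup G⟩
  apply e.injective
  rw [map_one]
  refine (pow_eq_one_iff_left hn).1 ?_
  rw [← map_pow, h, map_one]

/-- the centralizer of a nontrivial element is cyclic -/
theorem centralizer_cyclic {a : G} (ha : a ≠ 1) : ∃ r : G, r * a = a * r ∧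
    ∀ g : G, g * a = a * g → ∃ i : ℤ, g = r ^ i := by
  obtain ⟨H, hH⟩ : ∃ H : Subgroup G, H = Subgroup.centralizer {a} := ⟨_, rfl⟩
  have hmem : ∀ g : G, g ∈ H ↔ g * a = a * g := by
    intro g
    rw [hH, Subgroup.mem_centralizer_singleton_iff]
  have haH : a ∈ H := (hmem a).2 rfl
  obtain ⟨r, hr⟩ := cyclic_of_center (G := H) (y := ⟨a, haH⟩)
    (fun h => ha (congrArg Subtype.val h)) (fun g => Subtype.ext ((hmem g.1).1 g.2))
  refine ⟨r.1, (hmem _).1 r.2, fun g hg => ?_⟩
  obtain ⟨i, hi⟩ := hr ⟨g, (hmem g).2 hg⟩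
  exact ⟨i, by simpa using congrArg Subtype.val hi⟩

/-- commuting is transitive on the nontrivial elements -/
theorem comm_trans {a b c : G} (hb : b ≠ 1) (h1 : a * b = b * a) (h2 : c * b = b * c) :
    a * c = c * a := by
  obtain ⟨r, -, hr⟩ := centralizer_cyclic hb
  obtain ⟨i, rfl⟩ := hr a h1
  obtain ⟨j, rfl⟩ := hr c h2
  rw [← zpow_add, ← zpow_add, add_comm]

/-- **Nonabelian free groups are prime.** -/
theorem prime_of_free (h : ∃ a b : G, a * b ≠ b * a) : PrimeGroup G := by
  intro A B hA hB hAB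
  by_contra hcon
  push Not at hcon
  obtain ⟨hA1, hB1⟩ := hcon
  obtain ⟨a, ha, ha1⟩ := (Subgroup.ne_bot_iff_exists_ne_one).1 hA1 |> fun ⟨x, hx⟩ =>
    (⟨x.1, x.2, fun h => hx (Subtype.ext h)⟩ : ∃ a, a ∈ A ∧ a ≠ 1)
  obtain ⟨b, hb, hb1⟩ := (Subgroup.ne_bot_iff_exists_ne_one).1 hB1 |> fun ⟨x, hx⟩ =>
    (⟨x.1, x.2, fun h => hx (Subtype.ext h)⟩ : ∃ b, b ∈ B ∧ b ≠ 1)
  -- all conjugates of `a` commute with `a`
  have h1 : ∀ g : G, (g * a * g⁻¹) * a = a * (g * a * g⁻¹) := fun g =>
    comm_trans hb1 (hAB _ (hA.conj_mem a ha g) b hb) (hAB a ha b hb)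
  obtain ⟨z, hz, hz'⟩ := centralizer_cyclic ha1
  -- `a` is central
  have h2 : ∀ g : G, g * a = a * g := by
    intro g
    by_cases hg1 : g = 1
    · rw [hg1, one_mul, mul_one]
    -- `g z g⁻¹` commutes with `a`
    have hgag : g * a * g⁻¹ ≠ 1 := by
      intro h
      apply ha1
      have h3 : a = g⁻¹ * (g * a * g⁻¹) * g := by group
      rw [h3, h]
      group
    have h3 : ∀ k : G, k ≠ 1 → (k * z * k⁻¹) * a = a * (k * z * k⁻¹) := by
      intro k hk
      have hkak : k * a * k⁻¹ ≠ 1 := by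
        intro h
        apply ha1
        have h3 : a = k⁻¹ * (k * a * k⁻¹) * k := by group
        rw [h3, h]
        group
      refine comm_trans hkak ?_ (h1 k).symm
      have h4 : k * z * k⁻¹ * (k * a * k⁻¹) = k * (z * a) * k⁻¹ := by group
      have h5 : k * a * k⁻¹ * (k * z * k⁻¹) = k * (a * z) * k⁻¹ := by group
      rw [h4, h5, hz]
    obtain ⟨i, hi⟩ := hz' _ (h3 g hg1)
    obtain ⟨j, hj⟩ := hz' _ (h3 g⁻¹ (inv_ne_one.2 hg1))
    rw [inv_inv] at hj
    obtain ⟨n, hn⟩ := hz' a rfl
    have hz1 : z ≠ 1 := by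
      rintro rfl
      rw [one_zpow] at hn
      exact ha1 hn
    -- `z = g⁻¹ (g z g⁻¹) g = (g⁻¹ z g) ^ i = z ^ (j * i)`
    have h6 : z = z ^ (j * i) := by
      calc z = g⁻¹ * (g * z * g⁻¹) * g := by group
        _ = g⁻¹ * z ^ i * g := by rw [hi]
        _ = (g⁻¹ * z * g) ^ i := by
          have h7 := conj_zpow (a := g⁻¹) (b := z) (i := i)
          rw [inv_inv] at h7
          exact h7.symm
        _ = (z ^ j) ^ i := by rw [hj]
        _ = z ^ (j * i) := by rw [zpow_mul]
    have h7 : j * i = 1 := by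
      have h8 : z ^ (j * i - 1) = 1 := by
        rw [zpow_sub_one, ← h6, mul_inv_cancel]
      have h9 : Function.Injective fun n : ℤ => z ^ n :=
        injective_zpow_iff_not_isOfFinOrder.2 fun hfin =>
          hz1 (by
            obtain ⟨n, hn, hn1⟩ := isOfFinOrder_iff_pow_eq_one.1 hfin
            exact torsion_free z n hn.ne' hn1)
      have h10 := h9 (a₁ := j * i - 1) (a₂ := 0) (by simpa using h8)
      omega
    have h8 : i = 1 ∨ i = -1 := Int.isUnit_iff.1 (IsUnit.of_mul_eq_one_right j h7)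
    have h9 : (g * g) * z = z * (g * g) := by
      have h10 : g * g * z * (g * g)⁻¹ = z := by
        have h11 : g * g * z * (g * g)⁻¹ = g * (g * z * g⁻¹) * g⁻¹ := by group
        rw [h11, hi, ← conj_zpow, hi, ← zpow_mul]
        rcases h8 with h8 | h8 <;> rw [h8] <;> simp
      exact mul_inv_eq_iff_eq_mul.1 h10
    have h10 : g * g ≠ 1 := by
      intro h
      have h11 : g ^ 2 = 1 := by rw [pow_two, h]
      exact hg1 (torsion_free g 2 two_ne_zero h11)
    have h11 : z * g = g * z := comm_trans h10 h9.symm (mul_assoc g g g).symm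
    rw [hn]
    exact ((Commute.zpow_right (show Commute g z from h11.symm) n))
  obtain ⟨x, y, hxy⟩ := h
  exact hxy (comm_trans ha1 (h2 x) (h2 y))

end free

section ext

variable {C : ∀ (G : Type) [Group G], Prop}

/-- metabelian semidirect products -/
theorem cyclicExt_comm (hM : ∀ (G : Type) [Group G], derivedSeries G 2 = ⊥ → C G) {A : Type}
    [Group A] (hA : ∀ a b : A, a * b = b * a) : CyclicExt C A := by
  intro φ
  apply hM
  obtain ⟨D, hD⟩ : ∃ D : Subgroup (A ⋊[zpowersHom (MulAut A) φ] Multiplicative ℤ),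
    D = (SemidirectProduct.rightHom :
      A ⋊[zpowersHom (MulAut A) φ] Multiplicative ℤ →* Multiplicative ℤ).ker := ⟨_, rfl⟩
  have h1 : derivedSeries (A ⋊[zpowersHom (MulAut A) φ] Multiplicative ℤ) 1 ≤ D := by
    rw [derivedSeries_one, hD, commutator_def, Subgroup.commutator_le]
    intro a _ b _
    rw [MonoidHom.mem_ker, map_commutatorElement, commutatorElement_eq_one_iff_mul_comm, mul_comm]
  rw [eq_bot_iff, derivedSeries_succ]
  refine (Subgroup.commutator_mono h1 h1).trans ?_
  rw [Subgroup.commutator_le]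
  intro x hx y hy
  rw [Subgroup.mem_bot, commutatorElement_eq_one_iff_mul_comm]
  rw [hD, ← SemidirectProduct.range_inl_eq_ker_rightHom] at hx hy
  obtain ⟨a, rfl⟩ := hx
  obtain ⟨b, rfl⟩ := hy
  rw [← map_mul, ← map_mul, hA]

/-- **Subgroups of products of free groups.** -/
theorem ext_free_products (hC : ClosedE C) (hF : ∀ X : Type, CyclicExt C (FreeGroup X))
    (hM : ∀ (G : Type) [Group G], derivedSeries G 2 = ⊥ → C G) {E : Type} [Group E]
    (N : Subgroup E) [N.Normal] (k : ℕ) (X : Fin k → Type) (j : N →* ∀ i, FreeGroup (X i))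
    (hj : Function.Injective j) (hQ : C (E ⧸ N)) : C E := by
  classical
  obtain ⟨f, hf⟩ : ∃ f : ∀ i, N →* FreeGroup (X i), f = fun i => (Pi.evalMonoidHom _ i).comp j :=
    ⟨_, rfl⟩
  obtain ⟨T₁, hT₁⟩ : ∃ T₁ : Finset (Subgroup N), T₁ =
      (Finset.univ.filter fun i => ∃ a b : N, f i (a * b) ≠ f i (b * a)).image fun i =>
        (f i).ker := ⟨_, rfl⟩
  refine ext_subdirect hC N (insert (commutator N) T₁) ?_ ?_ hQ
  · intro K hK
    rcases Finset.mem_insert.1 hK with rfl | hK
    · refine ⟨inferInstance, Or.inl ?_, ?_⟩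
      · refine (Set.finite_singleton (commutator N)).subset ?_
        rintro _ ⟨e, rfl⟩
        exact Subgroup.characteristic_iff_map_eq.1 inferInstance _
      · refine cyclicExt_comm hM ?_
        intro a b
        obtain ⟨a, rfl⟩ := QuotientGroup.mk_surjective a
        obtain ⟨b, rfl⟩ := QuotientGroup.mk_surjective b
        exact mul_comm (G := Abelianization N) (QuotientGroup.mk a) (QuotientGroup.mk b)
    · rw [hT₁] at hK
      obtain ⟨i, hi, rfl⟩ := Finset.mem_image.1 hK
      obtain ⟨a, b, hab⟩ := (Finset.mem_filter.1 hi).2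
      have e : (f i).range ≃* N ⧸ (f i).ker := (QuotientGroup.quotientKerEquivRange (f i)).symm
      have e2 : FreeGroup (IsFreeGroup.Generators (f i).range) ≃* (f i).range :=
        (IsFreeGroup.toFreeGroup (f i).range).symm
      refine ⟨inferInstance, Or.inr ?_, ?_⟩
      · refine PrimeGroup.congr e (prime_of_free ⟨⟨f i a, a, rfl⟩, ⟨f i b, b, rfl⟩, fun h => ?_⟩)
        apply hab
        rw [map_mul, map_mul]
        exact congrArg Subtype.val h
      · exact ((hF _).congr hC e2).congr hC e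
  · intro g hg
    apply hj
    rw [map_one]
    funext i
    have hfi : j g i = f i g := by rw [hf]; rfl
    change j g i = 1
    rw [hfi]
    by_cases h : ∃ a b : N, f i (a * b) ≠ f i (b * a)
    · refine hg (f i).ker (Finset.mem_insert_of_mem ?_)
      rw [hT₁]
      exact Finset.mem_image_of_mem _ (Finset.mem_filter.2 ⟨Finset.mem_univ i, h⟩)
    · push Not at h
      have h1 := hg (commutator N) (Finset.mem_insert_self _ _)
      have h2 : commutator N ≤ (f i).ker := by
        rw [commutator_def, Subgroup.commutator_le]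
        intro a _ b _
        rw [MonoidHom.mem_ker, map_commutatorElement, commutatorElement_eq_one_iff_mul_comm,
          ← map_mul, ← map_mul, h]
      exact h2 h1

end ext

end Pool.Agent.N509.RF
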