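import Pool.Agent.N509.RG.AutX

set_option autoImplicit false

/-!
# Automorphisms of subdirect products

Let `K` run through finitely many normal subgroups of `G` with trivial intersection, each of which
has only finitely many images under the automorphisms of `G`. If the automorphism groups and the outer
automorphism groups of the quotients `G / K` are in the class, then so are those of `G`.
-/

namespace Pool.Agent.N509.RF

open Pool.Agent.N509.RG

/-- `K` has finitely many images under the automorphisms -/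
def FinOrb {G : Type} [Group G] (K : Subgroup G) : Prop :=
  (Set.range fun φ : MulAut G => K.map φ.toMonoidHom).Finite

section

variable {G : Type} [Group G] (A : Subgroup (MulAut G))

/-- action on the quotient -/
def qq (M : Subgroup G) [M.Normal] (h : A ≤ Stb M) : A →* MulAut (G ⧸ M) :=
  (quoN M).comp (Subgroup.inclusion h)

/-- outer action on the quotient -/
def oo (M : Subgroup G) [M.Normal] (h : A ≤ Stb M) : A →* Out (G ⧸ M) :=
  (QuotientGroup.mk' _).comp (qq A M h)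

variable {A}

theorem qq_apply {M : Subgroup G} [M.Normal] (h : A ≤ Stb M) (θ : A) (x : G) :
    qq A M h θ (x : G ⧸ M) = (θ.1 x : G ⧸ M) := rfl

theorem qq_eq_one {M : Subgroup G} [M.Normal] (h : A ≤ Stb M) (θ : A) :
    qq A M h θ = 1 ↔ ∀ x, (θ.1 x)⁻¹ * x ∈ M := by
  constructor
  · intro h1 x
    rw [← QuotientGroup.eq, ← qq_apply h, h1]
    rfl
  · intro h1
    ext q
    obtain ⟨x, rfl⟩ := QuotientGroup.mk_surjective q
    rw [qq_apply, MulAut.one_apply, QuotientGroup.eq]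
    exact h1 x

theorem qq_eq_conj {M : Subgroup G} [M.Normal] (h : A ≤ Stb M) (θ : A) (g : G) :
    qq A M h θ = MulAut.conj (g : G ⧸ M) ↔ ∀ x, (θ.1 x)⁻¹ * (g * x * g⁻¹) ∈ M := by
  constructor
  · intro h1 x
    rw [← QuotientGroup.eq, ← qq_apply h, h1]
    rfl
  · intro h1
    ext q
    obtain ⟨x, rfl⟩ := QuotientGroup.mk_surjective q
    rw [qq_apply]
    exact QuotientGroup.eq.2 (h1 x)

theorem oo_eq_one {M : Subgroup G} [M.Normal] (h : A ≤ Stb M) (θ : A) :
    oo A M h θ = 1 ↔ ∃ g : G, qq A M h θ = MulAut.conj (g : G ⧸ M) := by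
  refine (QuotientGroup.eq_one_iff _).trans ?_
  constructor
  · rintro ⟨q, hq⟩
    obtain ⟨g, rfl⟩ := QuotientGroup.mk_surjective q
    exact ⟨g, hq.symm⟩
  · rintro ⟨g, hg⟩
    exact ⟨_, hg.symm⟩

variable {X : ∀ (G : Type) [Group G], Prop}

/-- one step: intersection of two subgroups, automorphisms -/
theorem step_aut (hX : ExtClosed X) {K L M : Subgroup G} [K.Normal] [L.Normal] [M.Normal]
    (hM : M = K ⊓ L) (hK : A ≤ Stb K) (hL : A ≤ Stb L) (hM' : A ≤ Stb M)
    (h1 : X (qq A K hK).range) (h2 : X (qq A L hL).range) : X (qq A M hM').range := by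
  refine hX.range (qq A M hM') ((qq A K hK).rangeRestrict.prod (qq A L hL).rangeRestrict) ?_
    (hX.prod h1 h2)
  intro θ
  have h3 : ((qq A K hK).rangeRestrict.prod (qq A L hL).rangeRestrict) θ = 1 ↔
      qq A K hK θ = 1 ∧ qq A L hL θ = 1 := by
    constructor
    · intro h
      exact ⟨congrArg (fun z => (z.1 : MulAut (G ⧸ K))) h, congrArg (fun z => (z.2 : MulAut (G ⧸ L))) h⟩
    · rintro ⟨ha, hb⟩
      exact Prod.ext (Subtype.ext ha) (Subtype.ext hb)
  rw [h3, qq_eq_one, qq_eq_one, qq_eq_one, hM]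
  exact ⟨fun h => ⟨fun x => (h x).1, fun x => (h x).2⟩, fun h x => ⟨h.1 x, h.2 x⟩⟩

/-- one step: intersection of two subgroups, outer automorphisms -/
theorem step_out (hX : ExtClosed X) (hc : ∀ (G : Type) [Group G], (∀ a b : G, a * b = b * a) → X G)
    {K L M : Subgroup G} [K.Normal] [L.Normal] [M.Normal]
    (hM : M = K ⊓ L) (hK : A ≤ Stb K) (hL : A ≤ Stb L) (hM' : A ≤ Stb M)
    (hinn : ∀ g : G, MulAut.conj g ∈ A)
    (h1 : X (oo A K hK).range) (h2 : X (oo A L hL).range) : X (oo A M hM').range := by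
  have hfst : ∀ θ : A, ((oo A K hK).rangeRestrict.prod (oo A L hL).rangeRestrict) θ = 1 ↔
      oo A K hK θ = 1 ∧ oo A L hL θ = 1 := by
    intro θ
    constructor
    · intro h
      exact ⟨congrArg (fun z => (z.1 : Out (G ⧸ K))) h, congrArg (fun z => (z.2 : Out (G ⧸ L))) h⟩
    · rintro ⟨ha, hb⟩
      exact Prod.ext (Subtype.ext ha) (Subtype.ext hb)
  refine hX.range_of_ker (oo A M hM') ((oo A K hK).rangeRestrict.prod (oo A L hL).rangeRestrict) ?_
    (hX.prod h1 h2) (hc _ ?_)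
  · intro θ hθ
    rw [hfst]
    obtain ⟨g, hg⟩ := (oo_eq_one hM' θ).1 hθ
    rw [qq_eq_conj, hM] at hg
    exact ⟨(oo_eq_one hK θ).2 ⟨g, (qq_eq_conj hK θ g).2 fun x => (hg x).1⟩,
      (oo_eq_one hL θ).2 ⟨g, (qq_eq_conj hL θ g).2 fun x => (hg x).2⟩⟩
  · rintro ⟨_, θ, hθ, rfl⟩ ⟨_, θ', hθ', rfl⟩
    apply Subtype.ext
    change oo A M hM' θ * oo A M hM' θ' = oo A M hM' θ' * oo A M hM' θ
    have hq : ∀ (N : Subgroup G) [N.Normal] (hN : A ≤ Stb N) (g : G),
        qq A N hN ⟨MulAut.conj g, hinn g⟩ = MulAut.conj (g : G ⧸ N) := by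
      intro N _ hN g
      rw [qq_eq_conj]
      intro x
      change (g * x * g⁻¹)⁻¹ * (g * x * g⁻¹) ∈ N
      rw [inv_mul_cancel]
      exact one_mem N
    have h5 : ∀ θ : A, θ ∈ ((oo A K hK).rangeRestrict.prod (oo A L hL).rangeRestrict).ker →
        ∃ (η : A) (c : G), qq A K hK η = 1 ∧ qq A L hL η = MulAut.conj (c : G ⧸ L) ∧
          oo A M hM' θ = oo A M hM' η := by
      intro θ hθ
      obtain ⟨h6, h7⟩ := (hfst θ).1 hθ
      obtain ⟨a, ha⟩ := (oo_eq_one hK θ).1 h6
      obtain ⟨b, hb⟩ := (oo_eq_one hL θ).1 h7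
      refine ⟨(⟨MulAut.conj a, hinn a⟩ : A)⁻¹ * θ, a⁻¹ * b, ?_, ?_, ?_⟩
      · rw [map_mul, map_inv, hq, ha, inv_mul_cancel]
      · rw [map_mul, map_inv, hq, hb, ← map_inv, ← map_mul]
        rfl
      · have h8 : oo A M hM' ⟨MulAut.conj a, hinn a⟩ = 1 :=
          (oo_eq_one hM' _).2 ⟨a, hq M hM' a⟩
        rw [map_mul, map_inv, h8, inv_one, one_mul]
    obtain ⟨η, c, h6, h7, h8⟩ := h5 θ hθ
    obtain ⟨η', c', h6', h7', h8'⟩ := h5 θ' hθ'
    have h3 : c * c' * c⁻¹ * c'⁻¹ ∈ K ⊔ L := by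
      have h4 : (η.1 c')⁻¹ * (c * c' * c⁻¹) ∈ L := (qq_eq_conj hL η c).1 h7 c'
      have h5 : (η.1 c')⁻¹ * c' ∈ K := (qq_eq_one hK η).1 h6 c'
      have h6 : c * c' * c⁻¹ * c'⁻¹ =
          (η.1 c' * ((η.1 c')⁻¹ * (c * c' * c⁻¹)) * (η.1 c')⁻¹) * (c' * ((η.1 c')⁻¹ * c')⁻¹ * c'⁻¹) := by
        group
      rw [h6]
      exact mul_mem (Subgroup.mem_sup_right (Subgroup.Normal.conj_mem inferInstance _ h4 _))
        (Subgroup.mem_sup_left (Subgroup.Normal.conj_mem inferInstance _ (inv_mem h5) _))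
    obtain ⟨k, hk, l, hl, hkl⟩ := Subgroup.mem_sup_of_normal_right.1 h3
    have h9 : oo A M hM' (η * η' * η⁻¹ * η'⁻¹) = 1 := by
      rw [oo_eq_one]
      refine ⟨k, ?_⟩
      rw [qq_eq_conj, hM]
      have hKk : qq A K hK (η * η' * η⁻¹ * η'⁻¹) = MulAut.conj (k : G ⧸ K) := by
        rw [map_mul, map_mul, map_mul, map_inv, map_inv, h6, h6',
          (QuotientGroup.eq_one_iff k).2 hk, map_one]
        simp
      have hLk : qq A L hL (η * η' * η⁻¹ * η'⁻¹) = MulAut.conj (k : G ⧸ L) := by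
        rw [map_mul, map_mul, map_mul, map_inv, map_inv, h7, h7', ← map_inv, ← map_inv,
          ← map_mul, ← map_mul, ← map_mul]
        congr 1
        change ((c * c' * c⁻¹ * c'⁻¹ : G) : G ⧸ L) = (k : G ⧸ L)
        rw [← hkl, QuotientGroup.eq]
        simpa using hl
      rw [qq_eq_conj] at hKk hLk
      exact fun x => ⟨hKk x, hLk x⟩
    rw [map_mul, map_mul, map_mul, map_inv, map_inv, mul_inv_eq_one, mul_inv_eq_iff_eq_mul] at h9
    rw [h8, h8', h9]

theorem Stb_inf {K L : Subgroup G} (hK : A ≤ Stb K) (hL : A ≤ Stb L) : A ≤ Stb (K ⊓ L) := by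
  intro θ hθ
  change (K ⊓ L).map θ.toMonoidHom = K ⊓ L
  rw [Subgroup.map_inf K L θ.toMonoidHom θ.injective, show K.map θ.toMonoidHom = K from hK hθ,
    show L.map θ.toMonoidHom = L from hL hθ]

theorem Stb_top : A ≤ Stb (⊤ : Subgroup G) := by
  intro θ _
  exact Subgroup.map_top_of_surjective _ θ.surjective

/-- induction -/
theorem sub_ind (hX : ExtClosed X) (hc : ∀ (G : Type) [Group G], (∀ a b : G, a * b = b * a) → X G)
    (hinn : ∀ g : G, MulAut.conj g ∈ A) (T : Finset (Subgroup G))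
    (hT : ∀ K ∈ T, ∃ (_ : K.Normal) (h : A ≤ Stb K), X (qq A K h).range ∧ X (oo A K h).range) :
    ∃ (_ : (sInf (T : Set (Subgroup G))).Normal) (h : A ≤ Stb (sInf (T : Set (Subgroup G)))),
      X (qq A (sInf (T : Set (Subgroup G))) h).range ∧
      X (oo A (sInf (T : Set (Subgroup G))) h).range := by
  classical
  induction T using Finset.induction_on with
  | empty =>
    have h0 : sInf ((∅ : Finset (Subgroup G)) : Set (Subgroup G)) = ⊤ := by simp
    rw [h0]
    have hs : Subsingleton (G ⧸ (⊤ : Subgroup G)) := QuotientGroup.subsingleton_quotient_top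
    have hs1 : Subsingleton (MulAut (G ⧸ (⊤ : Subgroup G))) :=
      ⟨fun a b => MulEquiv.ext fun x => Subsingleton.elim _ _⟩
    have hs2 : Subsingleton (Out (G ⧸ (⊤ : Subgroup G))) :=
      ⟨fun a b => by
        obtain ⟨a, rfl⟩ := QuotientGroup.mk_surjective a
        obtain ⟨b, rfl⟩ := QuotientGroup.mk_surjective b
        rw [Subsingleton.elim a b]⟩
    exact ⟨inferInstance, Stb_top, hX.finite _ inferInstance, hX.finite _ inferInstance⟩
  | insert K T hKT ih =>
    obtain ⟨hn, hL, h1, h2⟩ := ih fun K' hK' => hT K' (Finset.mem_insert_of_mem hK')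
    obtain ⟨hKn, hK, h3, h4⟩ := hT K (Finset.mem_insert_self _ _)
    have h0 : sInf ((insert K T : Finset (Subgroup G)) : Set (Subgroup G)) =
        K ⊓ sInf (T : Set (Subgroup G)) := by
      rw [Finset.coe_insert, sInf_insert]
    have hMn : (sInf ((insert K T : Finset (Subgroup G)) : Set (Subgroup G))).Normal := by
      rw [h0]
      infer_instance
    have hM' : A ≤ Stb (sInf ((insert K T : Finset (Subgroup G)) : Set (Subgroup G))) := by
      rw [h0]
      exact Stb_inf hK hL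
    exact ⟨hMn, hM', step_aut hX h0 hK hL hM' h3 h1, step_out hX hc h0 hK hL hM' hinn h4 h2⟩

/-- **Subdirect products.** -/
theorem autOut_subdirect (hX : ExtClosed X)
    (hc : ∀ (G : Type) [Group G], (∀ a b : G, a * b = b * a) → X G) (T : Finset (Subgroup G))
    (hT : ∀ K ∈ T, FinOrb K ∧ ∃ _ : K.Normal, AutOut X (G ⧸ K))
    (h1 : ∀ g : G, (∀ K ∈ T, g ∈ K) → g = 1) : AutOut X G := by
  classical
  obtain ⟨A, hA⟩ : ∃ A : Subgroup (MulAut G), A = ⨅ K : T, Stb K.1 := ⟨_, rfl⟩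
  have hAle : ∀ K ∈ T, A ≤ Stb K := by
    intro K hK
    rw [hA]
    exact iInf_le (fun K : T => Stb K.1) ⟨K, hK⟩
  have hAfi : A.FiniteIndex := by
    have h2 : ∀ K : T, (Stb K.1).FiniteIndex := fun K => Stb_finiteIndex (hT K.1 K.2).1
    rw [hA]
    exact Subgroup.finiteIndex_iInf h2
  have hinn : ∀ g : G, MulAut.conj g ∈ A := by
    intro g
    rw [hA, Subgroup.mem_iInf]
    intro K
    obtain ⟨-, hn, -⟩ := hT K.1 K.2
    exact conj_mem_Stb K.1 g
  obtain ⟨hMn, hM, h2, h3⟩ := sub_ind hX hc hinn T (by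
    intro K hK
    obtain ⟨-, hn, h2, h3⟩ := hT K hK
    exact ⟨hn, hAle K hK, hX.of_injective _ _ (Subgroup.subtype _) (Subgroup.subtype_injective _) h2,
      hX.of_injective _ _ (Subgroup.subtype _) (Subgroup.subtype_injective _) h3⟩)
  have hbot : ∀ g ∈ sInf (T : Set (Subgroup G)), g = 1 := by
    intro g hg
    rw [Subgroup.mem_sInf] at hg
    exact h1 g fun K hK => hg K hK
  constructor
  · refine hX.finiteIndex A hAfi (hX.of_injective _ _ (qq A _ hM).rangeRestrict ?_ h2)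
    rw [injective_iff_map_eq_one]
    intro θ hθ
    have h4 : qq A _ hM θ = 1 := congrArg Subtype.val hθ
    rw [qq_eq_one] at h4
    apply Subtype.ext
    ext x
    exact inv_mul_eq_one.1 (hbot _ (h4 x))
  · obtain ⟨u, hu⟩ : ∃ u : A →* Out G, u = (QuotientGroup.mk' _).comp A.subtype := ⟨_, rfl⟩
    refine hX.finiteIndex u.range ?_ ?_
    · constructor
      have h5 : u.range = A.map (QuotientGroup.mk' _) := by
        rw [hu, MonoidHom.range_comp, Subgroup.range_subtype]
      rw [h5]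
      exact fun h0 => hAfi.index_ne_zero (Nat.eq_zero_of_zero_dvd
        (h0 ▸ Subgroup.index_map_dvd _ (QuotientGroup.mk'_surjective _)))
    · refine hX.range u (oo A _ hM).rangeRestrict ?_ h3
      intro θ
      have h4 : (oo A _ hM).rangeRestrict θ = 1 ↔ oo A _ hM θ = 1 :=
        ⟨fun h => congrArg Subtype.val h, fun h => Subtype.ext h⟩
      rw [h4, oo_eq_one, hu]
      refine (QuotientGroup.eq_one_iff _).trans ?_
      constructor
      · rintro ⟨g, hg⟩
        refine ⟨g, (qq_eq_conj hM θ g).2 fun x => ?_⟩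
        have h5 : θ.1 x = g * x * g⁻¹ := by
          have h6 := DFunLike.congr_fun hg x
          exact h6.symm
        rw [h5, inv_mul_cancel]
        exact one_mem _
      · rintro ⟨g, hg⟩
        rw [qq_eq_conj] at hg
        refine ⟨g, ?_⟩
        ext x
        exact (inv_mul_eq_one.1 (hbot _ (hg x))).symm

end

end Pool.Agent.N509.RF
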