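import Mathlib

set_option autoImplicit false

/-!
# Equationally Noetherian families and the maximal fully residually-`Γ` quotients of a group
-/

namespace Pool.Agent.N509.RF

open TopologicalSpace

section

variable {ι : Type} (Γ : ι → Type) [∀ i, Group (Γ i)]

/-- The family `Γ` is equationally Noetherian: every system of equations without coefficients in
finitely many unknowns is equivalent, in all groups of the family, to a finite subsystem. -/
def EqNoeth : Prop :=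
  ∀ (n : ℕ) (S : Set (FreeGroup (Fin n))), ∃ S₀ : Finset (FreeGroup (Fin n)),
    (S₀ : Set (FreeGroup (Fin n))) ⊆ S ∧
    ∀ (i : ι) (φ : FreeGroup (Fin n) →* Γ i), (∀ s ∈ S₀, φ s = 1) → ∀ s ∈ S, φ s = 1

/-- `N` is residually `Γ` -/
def Res (N : Type) [Group N] : Prop := ∀ g : N, g ≠ 1 → ∃ (i : ι) (φ : N →* Γ i), φ g ≠ 1

/-- `L` is fully residually `Γ` -/
def FullyRes (L : Type) [Group L] : Prop :=
  ∀ S : Finset L, (∀ s ∈ S, s ≠ 1) → ∃ (i : ι) (φ : L →* Γ i), ∀ s ∈ S, φ s ≠ 1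

variable {N : Type} [Group N]

/-- `N / K` is a fully residually `Γ` quotient of `N` -/
def IsLim (K : Subgroup N) : Prop := ∃ _ : K.Normal, FullyRes Γ (N ⧸ K)

/-- `N / K` is a maximal fully residually `Γ` quotient of `N` -/
def IsMaxLim (K : Subgroup N) : Prop :=
  IsLim Γ K ∧ ∀ K' : Subgroup N, K' ≤ K → IsLim Γ K' → K' = K

variable {Γ}

theorem isLim_iff (K : Subgroup N) : IsLim Γ K ↔ K.Normal ∧ ∀ S : Finset N, (∀ s ∈ S, s ∉ K) →
    ∃ (i : ι) (φ : N →* Γ i), K ≤ φ.ker ∧ ∀ s ∈ S, φ s ≠ 1 := by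
  classical
  constructor
  · rintro ⟨hK, h⟩
    refine ⟨hK, fun S hS => ?_⟩
    obtain ⟨i, φ, hφ⟩ := h (S.image (QuotientGroup.mk : N → N ⧸ K)) (by
      intro s hs
      obtain ⟨a, ha, rfl⟩ := Finset.mem_image.1 hs
      exact fun h1 => hS a ha ((QuotientGroup.eq_one_iff a).1 h1))
    refine ⟨i, φ.comp (QuotientGroup.mk' K), ?_, fun s hs => hφ _ (Finset.mem_image_of_mem _ hs)⟩
    intro k hk
    change φ (k : N ⧸ K) = 1
    rw [(QuotientGroup.eq_one_iff k).2 hk, map_one]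
  · rintro ⟨hK, h⟩
    refine ⟨hK, fun S hS => ?_⟩
    obtain ⟨i, φ, hφ, h1⟩ := h (S.image Quotient.out) (by
      intro s hs
      obtain ⟨a, ha, rfl⟩ := Finset.mem_image.1 hs
      intro h2
      refine hS a ha ?_
      have h3 : ((Quotient.out a : N) : N ⧸ K) = a := Quotient.out_eq a
      rw [← h3]
      exact (QuotientGroup.eq_one_iff _).2 h2)
    refine ⟨i, QuotientGroup.lift K φ hφ, fun s hs => ?_⟩
    have h3 : ((Quotient.out s : N) : N ⧸ K) = s := Quotient.out_eq s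
    rw [← h3, QuotientGroup.lift_mk]
    exact h1 _ (Finset.mem_image_of_mem _ hs)

variable (Γ N)

/-- the homomorphisms to the groups of the family -/
def Pt : Type := Σ i, N →* Γ i

variable {Γ N}

/-- the homomorphisms not killing `g` -/
def UU (g : N) : Set (Pt Γ N) := {p | p.2 g ≠ 1}

instance : TopologicalSpace (Pt Γ N) := generateFrom (Set.range UU)

theorem isOpen_UU (g : N) : IsOpen (UU g : Set (Pt Γ N)) :=
  GenerateOpen.basic _ ⟨g, rfl⟩

theorem EqNoeth.fin (hΓ : EqNoeth Γ) [hN : Group.FG N] (S : Set N) : ∃ S₀ : Finset N,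
    (S₀ : Set N) ⊆ S ∧ ∀ p : Pt Γ N, (∀ s ∈ S₀, p.2 s = 1) → ∀ s ∈ S, p.2 s = 1 := by
  classical
  obtain ⟨n, f, hf⟩ : ∃ (n : ℕ) (f : FreeGroup (Fin n) →* N), Function.Surjective f := by
    obtain ⟨T, hT, f, hf⟩ := Group.fg_iff_exists_freeGroup_hom_surjective_finite.1 hN
    have hT' := Fintype.ofFinite T
    let e := Fintype.equivFin T
    exact ⟨Fintype.card T, f.comp (FreeGroup.freeGroupCongr e.symm).toMonoidHom,
      hf.comp (MulEquiv.surjective _)⟩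
  obtain ⟨S₀, h1, h2⟩ := hΓ n (f ⁻¹' S)
  refine ⟨S₀.image f, ?_, ?_⟩
  · intro s hs
    obtain ⟨a, ha, rfl⟩ := Finset.mem_image.1 (Finset.mem_coe.1 hs)
    exact h1 ha
  · intro p hp s hs
    obtain ⟨a, rfl⟩ := hf s
    exact h2 p.1 (p.2.comp f) (fun s hs => hp _ (Finset.mem_image_of_mem _ hs)) a hs

theorem noetherian (hΓ : EqNoeth Γ) [hN : Group.FG N] : NoetherianSpace (Pt Γ N) := by
  classical
  rw [noetherianSpace_iff_isCompact]
  intro T
  refine isCompact_generateFrom (S := Set.range UU) rfl ?_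
  intro P hP hT
  obtain ⟨S₀, h1, h2⟩ := hΓ.fin (N := N) {g | UU g ∈ P}
  refine ⟨((S₀.image UU : Finset (Set (Pt Γ N))) : Set (Set (Pt Γ N))), ?_,
    Finset.finite_toSet _, ?_⟩
  · intro s hs
    obtain ⟨a, ha, rfl⟩ := Finset.mem_image.1 (Finset.mem_coe.1 hs)
    exact h1 ha
  · intro p hp
    obtain ⟨V, hV, hpV⟩ := hT hp
    obtain ⟨g, rfl⟩ := hP hV
    by_contra hcon
    refine hpV (h2 p ?_ g hV)
    intro s hs
    by_contra h3
    exact hcon ⟨UU s, Finset.mem_coe.2 (Finset.mem_image_of_mem _ hs), h3⟩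

/-- the homomorphisms killing `K` -/
def ZZ (K : Subgroup N) : Set (Pt Γ N) := {p | K ≤ p.2.ker}

/-- the common kernel -/
def KK (Z : Set (Pt Γ N)) : Subgroup N := ⨅ p ∈ Z, p.2.ker

theorem mem_KK {Z : Set (Pt Γ N)} {g : N} : g ∈ KK Z ↔ ∀ p ∈ Z, p.2 g = 1 := by
  simp only [KK, Subgroup.mem_iInf, MonoidHom.mem_ker]

theorem KK_normal (Z : Set (Pt Γ N)) : (KK Z).Normal := by
  constructor
  intro g hg x
  rw [mem_KK] at hg ⊢
  intro p hp
  rw [map_mul, map_mul, map_inv, hg p hp, mul_one, mul_inv_cancel]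

theorem irred_ZZ {K : Subgroup N} (hK : IsLim Γ K) : IsIrreducible (ZZ K : Set (Pt Γ N)) := by
  classical
  rw [isLim_iff] at hK
  obtain ⟨hn, h⟩ := hK
  constructor
  · obtain ⟨i, φ, h1, -⟩ := h ∅ (by simp)
    exact ⟨⟨i, φ⟩, h1⟩
  · rintro u v hu hv ⟨p, hp, hpu⟩ ⟨q, hq, hqv⟩
    have hb : IsTopologicalBasis ((fun f => ⋂₀ f) '' {f : Set (Set (Pt Γ N)) | f.Finite ∧
        f ⊆ Set.range UU}) := isTopologicalBasis_of_subbasis rfl
    obtain ⟨_, ⟨F, ⟨hF, hF'⟩, rfl⟩, hpF, hFu⟩ := hb.exists_subset_of_mem_open hpu hu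
    obtain ⟨_, ⟨F₂, ⟨hF₂, hF₂'⟩, rfl⟩, hqF, hFv⟩ := hb.exists_subset_of_mem_open hqv hv
    have key : ∀ (F : Set (Set (Pt Γ N))), F.Finite → F ⊆ Set.range UU → ∀ p : Pt Γ N, p ∈ ZZ K →
        p ∈ ⋂₀ F → ∃ S : Finset N, (∀ s ∈ S, s ∉ K) ∧ ∀ χ : Pt Γ N, (∀ s ∈ S, χ.2 s ≠ 1) →
          χ ∈ ⋂₀ F := by
      intro F hF hF' p hp hpF
      choose! g hg using fun V (hV : V ∈ F) => hF' hV
      refine ⟨hF.toFinset.image g, ?_, ?_⟩
      · intro s hs
        obtain ⟨V, hV, rfl⟩ := Finset.mem_image.1 hs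
        have hV' : V ∈ F := hF.mem_toFinset.1 hV
        intro h1
        have h2 : p ∈ V := hpF V hV'
        rw [← hg V hV'] at h2
        exact h2 (hp h1)
      · intro χ hχ V hV
        rw [← hg V hV]
        exact hχ _ (Finset.mem_image_of_mem _ (hF.mem_toFinset.2 hV))
    obtain ⟨S, hS, hS'⟩ := key F hF hF' p hp hpF
    obtain ⟨S₂, hS₂, hS₂'⟩ := key F₂ hF₂ hF₂' q hq hqF
    obtain ⟨i, φ, h1, h2⟩ := h (S ∪ S₂) (by
      intro s hs
      rcases Finset.mem_union.1 hs with h | h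
      · exact hS s h
      · exact hS₂ s h)
    exact ⟨⟨i, φ⟩, h1, hFu (hS' ⟨i, φ⟩ fun s hs => h2 s (Finset.mem_union_left _ hs)),
      hFv (hS₂' ⟨i, φ⟩ fun s hs => h2 s (Finset.mem_union_right _ hs))⟩

theorem isLim_KK {Z : Set (Pt Γ N)} (hZ : IsIrreducible Z) : IsLim Γ (KK Z) := by
  classical
  rw [isLim_iff]
  refine ⟨KK_normal Z, fun S hS => ?_⟩
  obtain ⟨p, hp, hpS⟩ := (isIrreducible_iff_sInter.1 hZ) (S.image UU) (by
    intro u hu
    obtain ⟨a, ha, rfl⟩ := Finset.mem_image.1 hu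
    exact isOpen_UU a) (by
    intro u hu
    obtain ⟨a, ha, rfl⟩ := Finset.mem_image.1 hu
    have h1 := hS a ha
    rw [mem_KK] at h1
    push Not at h1
    obtain ⟨p, hp, h2⟩ := h1
    exact ⟨p, hp, h2⟩)
  refine ⟨p.1, p.2, ?_, fun s hs => ?_⟩
  · intro g hg
    exact mem_KK.1 hg p hp
  · exact hpS (UU s) (Finset.mem_coe.2 (Finset.mem_image_of_mem _ hs))

theorem KK_ZZ {K : Subgroup N} (hK : IsLim Γ K) : KK (ZZ K : Set (Pt Γ N)) = K := by
  classical
  apply le_antisymm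
  · intro g hg
    by_contra hgK
    obtain ⟨i, φ, h1, h2⟩ := ((isLim_iff K).1 hK).2 {g} (by simpa using hgK)
    exact h2 g (Finset.mem_singleton_self g) (mem_KK.1 hg ⟨i, φ⟩ h1)
  · intro g hg
    rw [mem_KK]
    intro p hp
    exact hp hg

theorem isMaxLim_of_mem {Z : Set (Pt Γ N)} (hZ : Z ∈ irreducibleComponents (Pt Γ N)) :
    IsMaxLim Γ (KK Z) := by
  refine ⟨isLim_KK hZ.1, fun K' hK' hL => ?_⟩
  have h1 : Z ⊆ ZZ K' := fun p hp g hg => mem_KK.1 (hK' hg) p hp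
  have h2 : (ZZ K' : Set (Pt Γ N)) ⊆ Z := hZ.2 (irred_ZZ hL) h1
  have h3 : (ZZ K' : Set (Pt Γ N)) = Z := Set.Subset.antisymm h2 h1
  rw [← h3, KK_ZZ hL]

variable (Γ)

/-- **Finitely many maximal fully residually `Γ` quotients.** -/
theorem finite_maxLim (hΓ : EqNoeth Γ) [Group.FG N] : {K : Subgroup N | IsMaxLim Γ K}.Finite := by
  have h := noetherian (N := N) hΓ
  refine ((NoetherianSpace.finite_irreducibleComponents (α := Pt Γ N)).image KK).subset ?_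
  intro K hK
  obtain ⟨Z, hZ, hKZ⟩ := exists_mem_irreducibleComponents_subset_of_isIrreducible _
    (irred_ZZ hK.1)
  refine ⟨Z, hZ, hK.2 _ ?_ (isLim_KK hZ.1)⟩
  intro g hg
  rw [← KK_ZZ hK.1, mem_KK]
  intro p hp
  exact mem_KK.1 hg p (hKZ hp)

variable {Γ}

/-- Every homomorphism to a group of the family factors through one of them. -/
theorem exists_maxLim {i : ι} (φ : N →* Γ i) : ∃ K : Subgroup N, IsMaxLim Γ K ∧ K ≤ φ.ker := by
  obtain ⟨Z, hZ, h⟩ := exists_mem_irreducibleComponents_subset_of_isIrreducible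
    ({⟨i, φ⟩} : Set (Pt Γ N)) isIrreducible_singleton
  exact ⟨KK Z, isMaxLim_of_mem hZ, fun g hg => mem_KK.1 hg ⟨i, φ⟩ (h rfl)⟩

/-- The intersection is trivial if the group is residually `Γ`. -/
theorem Res.eq_one (h : Res Γ N) {g : N} (hg : ∀ K : Subgroup N, IsMaxLim Γ K → g ∈ K) : g = 1 := by
  by_contra h1
  obtain ⟨i, φ, h2⟩ := h g h1
  obtain ⟨K, hK, hK'⟩ := exists_maxLim φ
  exact h2 (hK' (hg K hK))

/-- images under automorphisms -/
theorem IsLim.map {K : Subgroup N} (hK : IsLim Γ K) (θ : MulAut N) :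
    IsLim Γ (K.map θ.toMonoidHom) := by
  classical
  rw [isLim_iff] at hK ⊢
  obtain ⟨hn, h⟩ := hK
  refine ⟨hn.map _ θ.surjective, fun S hS => ?_⟩
  obtain ⟨i, φ, h1, h2⟩ := h (S.image θ.symm) (by
    intro s hs
    obtain ⟨a, ha, rfl⟩ := Finset.mem_image.1 hs
    intro h3
    exact hS a ha ⟨_, h3, θ.apply_symm_apply a⟩)
  refine ⟨i, φ.comp θ.symm.toMonoidHom, ?_, fun s hs => h2 _ (Finset.mem_image_of_mem _ hs)⟩
  rintro _ ⟨k, hk, rfl⟩
  change φ (θ.symm (θ k)) = 1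
  rw [θ.symm_apply_apply]
  exact h1 hk

theorem map_symm_map (K : Subgroup N) (θ : MulAut N) :
    (K.map θ.toMonoidHom).map (θ⁻¹ : MulAut N).toMonoidHom = K := by
  rw [Subgroup.map_map]
  have h : ((θ⁻¹ : MulAut N).toMonoidHom.comp θ.toMonoidHom) = MonoidHom.id N := by
    ext x
    exact θ.symm_apply_apply x
  rw [h, Subgroup.map_id]

theorem IsMaxLim.map {K : Subgroup N} (hK : IsMaxLim Γ K) (θ : MulAut N) :
    IsMaxLim Γ (K.map θ.toMonoidHom) := by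
  refine ⟨hK.1.map θ, fun K' hK' hL => ?_⟩
  have h1 := hK.2 (K'.map (θ⁻¹ : MulAut N).toMonoidHom) (by
    have h2 := Subgroup.map_mono (f := (θ⁻¹ : MulAut N).toMonoidHom) hK'
    rwa [map_symm_map] at h2) (hL.map θ⁻¹)
  rw [← h1]
  have h3 := map_symm_map K' θ⁻¹
  rw [inv_inv] at h3
  exact h3.symm

end

end Pool.Agent.N509.RF
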