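import Pool.Agent.N509.RF.Gen

set_option autoImplicit false

/-!
# Prime quotients have finitely many images under automorphisms
-/

namespace Pool.Agent.N509.RF

open Pool.Agent.N509.RG

/-- Two nontrivial normal subgroups do not commute elementwise. -/
def PrimeGroup (P : Type) [Group P] : Prop :=
  ∀ A B : Subgroup P, A.Normal → B.Normal → (∀ a ∈ A, ∀ b ∈ B, a * b = b * a) → A = ⊥ ∨ B = ⊥

theorem PrimeGroup.congr {P Q : Type} [Group P] [Group Q] (e : P ≃* Q) (h : PrimeGroup P) :
    PrimeGroup Q := by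
  intro A B hA hB hAB
  have h1 := h (A.comap e.toMonoidHom) (B.comap e.toMonoidHom) (hA.comap _) (hB.comap _) (by
    intro a ha b hb
    apply e.injective
    rw [map_mul, map_mul]
    exact hAB _ ha _ hb)
  rcases h1 with h1 | h1
  · left
    rw [← Subgroup.map_comap_eq_self_of_surjective (f := e.toMonoidHom) e.surjective A, h1,
      Subgroup.map_bot]
  · right
    rw [← Subgroup.map_comap_eq_self_of_surjective (f := e.toMonoidHom) e.surjective B, h1,
      Subgroup.map_bot]

section

variable {G : Type} [Group G]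

/-- a subgroup with prime quotient which contains the intersection of two normal subgroups contains
one of them -/
theorem prime_two {K : Subgroup G} [K.Normal] (hp : PrimeGroup (G ⧸ K)) {A B : Subgroup G}
    (hA : A.Normal) (hB : B.Normal) (h : A ⊓ B ≤ K) : A ≤ K ∨ B ≤ K := by
  have h1 := hp (A.map (QuotientGroup.mk' K)) (B.map (QuotientGroup.mk' K))
    (hA.map _ (QuotientGroup.mk'_surjective K)) (hB.map _ (QuotientGroup.mk'_surjective K)) (by
    rintro _ ⟨a, ha, rfl⟩ _ ⟨b, hb, rfl⟩
    have h2 : a * b * a⁻¹ * b⁻¹ ∈ A ⊓ B := by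
      constructor
      · have h3 := mul_mem ha (hA.conj_mem _ (inv_mem ha) b)
        have h4 : a * b * a⁻¹ * b⁻¹ = a * (b * a⁻¹ * b⁻¹) := by group
        change a * b * a⁻¹ * b⁻¹ ∈ A
        rw [h4]
        exact h3
      · change a * b * a⁻¹ * b⁻¹ ∈ B
        exact mul_mem (hB.conj_mem _ hb a) (inv_mem hb)
    have h5 := (QuotientGroup.eq_one_iff _).2 (h h2)
    change (QuotientGroup.mk' K) (a * b * a⁻¹ * b⁻¹) = 1 at h5
    rw [map_mul, map_mul, map_mul, map_inv, map_inv, mul_inv_eq_one, mul_inv_eq_iff_eq_mul] at h5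
    exact h5)
  rcases h1 with h1 | h1
  · left
    rw [Subgroup.map_eq_bot_iff, QuotientGroup.ker_mk'] at h1
    exact h1
  · right
    rw [Subgroup.map_eq_bot_iff, QuotientGroup.ker_mk'] at h1
    exact h1

theorem prime_le {K : Subgroup G} [K.Normal] (hp : PrimeGroup (G ⧸ K)) (T : Finset (Subgroup G))
    (hT : ∀ A ∈ T, A.Normal) (h : sInf (T : Set (Subgroup G)) ≤ K) : K = ⊤ ∨ ∃ A ∈ T, A ≤ K := by
  classical
  induction T using Finset.induction_on with
  | empty =>
    left
    simpa using h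
  | insert A T hAT ih =>
    rw [Finset.coe_insert, sInf_insert] at h
    have hn : (sInf (T : Set (Subgroup G))).Normal := by
      constructor
      intro n hn g
      rw [Subgroup.mem_sInf] at hn ⊢
      intro B hB
      exact (hT B (Finset.mem_insert_of_mem hB)).conj_mem n (hn B hB) g
    rcases prime_two hp (hT A (Finset.mem_insert_self _ _)) hn h with h1 | h1
    · exact Or.inr ⟨A, Finset.mem_insert_self _ _, h1⟩
    · rcases ih (fun B hB => hT B (Finset.mem_insert_of_mem hB)) h1 with h2 | ⟨B, hB, h2⟩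
      · exact Or.inl h2
      · exact Or.inr ⟨B, Finset.mem_insert_of_mem hB, h2⟩

variable {E : Type} [Group E] (f : E →* MulAut G)

/-- finitely many images under the automorphisms `f e` -/
def Orb (K : Subgroup G) : Prop := (Set.range fun e : E => K.map (f e).toMonoidHom).Finite

variable {f}

theorem map_map_inv (K : Subgroup G) (θ η : MulAut G) :
    (K.map θ.toMonoidHom).map η.toMonoidHom = K.map (η * θ).toMonoidHom := by
  rw [Subgroup.map_map]
  rfl

theorem Orb.map {K : Subgroup G} (h : Orb f K) (e : E) : Orb f (K.map (f e).toMonoidHom) := by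
  refine h.subset ?_
  rintro _ ⟨e', rfl⟩
  refine ⟨e' * e, ?_⟩
  change K.map (f (e' * e)).toMonoidHom = (K.map (f e).toMonoidHom).map (f e').toMonoidHom
  rw [map_map_inv, map_mul]

theorem map_le_iff (K L : Subgroup G) (e : E) :
    K ≤ L.map (f e).toMonoidHom ↔ K.map (f e⁻¹).toMonoidHom ≤ L := by
  constructor
  · intro h
    have h1 := Subgroup.map_mono (f := (f e⁻¹).toMonoidHom) h
    rw [map_map_inv, ← map_mul, inv_mul_cancel, map_one] at h1
    have h2 : L.map (1 : MulAut G).toMonoidHom = L := Subgroup.map_id L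
    rwa [h2] at h1
  · intro h
    have h1 := Subgroup.map_mono (f := (f e).toMonoidHom) h
    rw [map_map_inv, ← map_mul, mul_inv_cancel, map_one] at h1
    have h2 : K.map (1 : MulAut G).toMonoidHom = K := Subgroup.map_id K
    rwa [h2] at h1

/-- **Passing to subgroups with finite orbits.** -/
theorem refine_orb (T : Finset (Subgroup G)) (hn : ∀ K ∈ T, K.Normal)
    (hT : ∀ K ∈ T, Orb f K ∨ ∃ _ : K.Normal, PrimeGroup (G ⧸ K))
    (h1 : ∀ g : G, (∀ K ∈ T, g ∈ K) → g = 1) :
    ∃ T' : Finset (Subgroup G), (∀ K' ∈ T', Orb f K' ∧ ∃ K ∈ T, ∃ e : E,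
      K' = K.map (f e).toMonoidHom) ∧ ∀ g : G, (∀ K ∈ T', g ∈ K) → g = 1 := by
  classical
  have hfin : (⋃ K ∈ {K | K ∈ T ∧ Orb f K}, Set.range fun e : E => K.map (f e).toMonoidHom).Finite :=
    (T.finite_toSet.subset (fun K hK => hK.1)).biUnion fun K hK => hK.2
  refine ⟨hfin.toFinset, ?_, ?_⟩
  · intro K' hK'
    rw [Set.Finite.mem_toFinset, Set.mem_iUnion₂] at hK'
    obtain ⟨K, ⟨hK, hO⟩, e, rfl⟩ := hK'
    exact ⟨hO.map e, K, hK, e, rfl⟩
  · intro g hg
    have hg' : ∀ K ∈ T, Orb f K → ∀ e : E, g ∈ K.map (f e).toMonoidHom := by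
      intro K hK hO e
      refine hg _ ?_
      rw [Set.Finite.mem_toFinset, Set.mem_iUnion₂]
      exact ⟨K, ⟨hK, hO⟩, e, rfl⟩
    have hgT : ∀ K ∈ T, Orb f K → g ∈ K := by
      intro K hK hO
      have h2 := hg' K hK hO 1
      have h3 : K.map (f 1).toMonoidHom = K := by
        rw [map_one]
        exact Subgroup.map_id K
      rwa [h3] at h2
    refine h1 g fun K hK => ?_
    -- a minimal element below `K`
    obtain ⟨M, hMK, hMmin⟩ : ∃ M, (M ∈ T ∧ M ≤ K) ∧ ∀ M' ∈ T, M' ≤ M → M' = M := by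
      obtain ⟨M, hM⟩ := (T.filter fun M => M ≤ K).exists_minimal ⟨K, by simp [hK]⟩
      have hM1 := Finset.mem_filter.1 hM.1
      exact ⟨M, hM1, fun M' hM' hle => le_antisymm hle
        (hM.2 (Finset.mem_filter.2 ⟨hM', hle.trans hM1.2⟩) hle)⟩
    refine hMK.2 ?_
    by_cases hO : Orb f M
    · exact hgT M hMK.1 hO
    obtain ⟨hMn, hMp⟩ := (hT M hMK.1).resolve_left hO
    have hbot : ∀ L : Subgroup G, sInf (T : Set (Subgroup G)) ≤ L := by
      intro L x hx
      rw [Subgroup.mem_sInf] at hx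
      rw [h1 x fun K hK => hx K hK]
      exact one_mem L
    -- images have prime quotients
    have hprime : ∀ (L : Subgroup G), (∃ _ : L.Normal, PrimeGroup (G ⧸ L)) → ∀ e : E,
        ∃ A ∈ T, A ≤ L.map (f e).toMonoidHom := by
      rintro L ⟨hLn, hLp⟩ e
      have hn' : (L.map (f e).toMonoidHom).Normal := hLn.map _ (f e).surjective
      rcases prime_le (hLp.congr (QuotientGroup.congr L (L.map (f e).toMonoidHom) (f e) rfl)) T hn
        (hbot _) with h2 | h2
      · exact ⟨M, hMK.1, h2 ▸ le_top⟩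
      · exact h2
    by_contra hgM
    apply hO
    refine T.finite_toSet.subset ?_
    rintro _ ⟨e, rfl⟩
    obtain ⟨A, hA, hAle⟩ := hprime M ⟨hMn, hMp⟩ e
    rw [map_le_iff] at hAle
    by_cases hAO : Orb f A
    · exact absurd (hAle (hg' A hA hAO e⁻¹)) hgM
    · obtain ⟨B, hB, hBle⟩ := hprime A ((hT A hA).resolve_left hAO) e⁻¹
      have h3 := hMmin B hB (hBle.trans hAle)
      rw [h3] at hBle
      have h4 : M = A.map (f e⁻¹).toMonoidHom := le_antisymm hBle hAle
      change M.map (f e).toMonoidHom ∈ (T : Set (Subgroup G))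
      rw [h4, map_map_inv, ← map_mul, mul_inv_cancel, map_one]
      have h5 : A.map (1 : MulAut G).toMonoidHom = A := Subgroup.map_id A
      rw [h5]
      exact hA

end

end Pool.Agent.N509.RF
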